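import Pool.Agent.Lib.MP_bc213e_ag.DA.Fib

/-! A universal domain, and simplicity of a tensor product of fields under derivations. -/

namespace Pool.Agent.Lib.MP_bc213e_ag.DA

open Cardinal
open scoped TensorProduct

noncomputable section

/-- A universal domain over `k`. -/
abbrev UD (k : Type) [Field k] : Type := AlgebraicClosure (FractionRing (MvPolynomial ℕ k))

theorem UD_trdeg (k : Type) [Field k] : ℵ₀ ≤ Algebra.trdeg k (UD k) := by
  have h := trdeg_le_of_injective (IsScalarTower.toAlgHom k (MvPolynomial ℕ k) (UD k))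
    ((algebraMap (FractionRing (MvPolynomial ℕ k)) (UD k)).injective.comp
      (IsFractionRing.injective (MvPolynomial ℕ k) _))
  rwa [MvPolynomial.trdeg_of_isDomain, mk_nat, lift_id] at h

theorem algInd_iff {F A ι : Type} [Field F] [CommRing A] [Algebra F A] {z : ι → A} :
    AlgebraicIndependent F z ↔
      LinearIndependent F fun β : ι →₀ ℕ => β.prod fun i n => z i ^ n := by
  have h : (fun β : ι →₀ ℕ => β.prod fun i n => z i ^ n) =
      (MvPolynomial.aeval z : MvPolynomial ι F →ₐ[F] A).toLinearMap ∘
        MvPolynomial.basisMonomials ι F := by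
    funext β
    simp [MvPolynomial.aeval_monomial]
  rw [h, algebraicIndependent_iff_injective_aeval]
  refine ⟨fun hi => (MvPolynomial.basisMonomials ι F).linearIndependent.map' _
    (LinearMap.ker_eq_bot.2 hi), fun hi => ?_⟩
  exact LinearMap.injective_of_linearIndependent (MvPolynomial.basisMonomials ι F).span_eq hi

variable {k K Ω : Type} [Field k] [Field K] [Field Ω] [Algebra k K] [Algebra k Ω]

theorem const_of_der [CharZero k] [IsAlgClosed k] {f : K} (h : ∀ δ : Derivation k K K, δ f = 0) :
    ∃ c, algebraMap k K c = f := by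
  by_cases hf : IsAlgebraic k f
  · exact minpoly.mem_range_of_degree_eq_one k f
      (IsAlgClosed.degree_eq_one_of_irreducible k (minpoly.irreducible hf.isIntegral))
  · obtain ⟨δ, hδ⟩ := KBA.exists_der_one hf
    exact absurd (hδ.symm.trans (h δ)) one_ne_zero

/-- The ring `Ω ⊗ K` has no proper non-zero ideal that is stable under the derivations of `K`. -/
theorem simple_of {𝒟 : Set (Derivation k K K)}
    (h𝒟 : ∀ f, (∀ D ∈ 𝒟, D f = 0) → ∃ c, algebraMap k K c = f) {I : Ideal (Ω ⊗[k] K)}
    (hI : ∀ D ∈ 𝒟, ∀ s ∈ I, rder D s ∈ I) (h1 : I ≠ ⊤) : I = ⊥ := by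
  classical
  let β := Module.Basis.ofVectorSpace k Ω
  have key : ∀ (n : ℕ) (c : _ →₀ K), c.support.card ≤ n →
      (c.sum fun i f => β i ⊗ₜ[k] f) ∈ I → c = 0 := fun n => by
    induction n with
    | zero => exact fun c hc _ => by simpa using hc
    | succ n ih =>
      intro c hc hcI
      by_contra h0
      obtain ⟨j, hj⟩ := Finsupp.support_nonempty_iff.2 h0
      have hj0 : c j ≠ 0 := Finsupp.mem_support_iff.1 hj
      have h2 : ∑ i ∈ c.support, β i ⊗ₜ[k] ((c j)⁻¹ * c i) ∈ I := by
        have h3 := I.mul_mem_left (1 ⊗ₜ[k] (c j)⁻¹) hcI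
        simpa only [Finsupp.sum, Finset.mul_sum, Algebra.TensorProduct.tmul_mul_tmul, one_mul]
          using h3
      have h3 : ∀ i, ∃ a, algebraMap k K a = (c j)⁻¹ * c i := fun i => h𝒟 _ fun D hD => by
        let c' := c.mapRange (fun f => D ((c j)⁻¹ * f)) (by simp)
        have h4 : c'.support ⊆ c.support.erase j := fun l hl => by
          refine Finset.mem_erase.2 ⟨?_, Finsupp.support_mapRange hl⟩
          rintro rfl
          refine Finsupp.mem_support_iff.1 hl ?_
          rw [Finsupp.mapRange_apply, inv_mul_cancel₀ hj0, D.map_one_eq_zero]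
        have h5 := ih c' ((Finset.card_le_card h4).trans
          (by rw [Finset.card_erase_of_mem hj]; omega)) (by
            rw [Finsupp.sum_mapRange_index fun _ => TensorProduct.tmul_zero _ _]
            simpa only [map_sum, rder_tmul, Finsupp.sum] using hI D hD _ h2)
        exact DFunLike.congr_fun h5 i
      choose a ha using h3
      have h4 : ∑ i ∈ c.support, β i ⊗ₜ[k] ((c j)⁻¹ * c i) =
          algebraMap Ω (Ω ⊗[k] K) (∑ i ∈ c.support, a i • β i) := by
        rw [map_sum]
        refine Finset.sum_congr rfl fun i _ => ?_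
        rw [← ha, Algebra.algebraMap_eq_smul_one, TensorProduct.tmul_smul,
          TensorProduct.smul_tmul']
        rfl
      have h5 : ∑ i ∈ c.support, a i • β i ≠ 0 := fun h6 => by
        have h7 := ha j
        rw [linearIndependent_iff'.1 β.linearIndependent _ _ h6 j hj, map_zero,
          inv_mul_cancel₀ hj0] at h7
        exact zero_ne_one h7
      exact h1 (I.eq_top_of_isUnit_mem (h4 ▸ h2) ((IsUnit.mk0 _ h5).map _))
  refine eq_bot_iff.2 fun s hs => ?_
  obtain ⟨c, rfl⟩ := TensorProduct.eq_repr_basis_left β s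
  rw [key _ c le_rfl hs]
  simp

theorem lder_zero (s : Ω ⊗[k] K) : lder (0 : Derivation k Ω Ω) s = 0 := by
  induction s with
  | zero => simp
  | add s t hs ht => rw [map_add, hs, ht, add_zero]
  | tmul c f => simp

theorem rder_zero (s : Ω ⊗[k] K) : rder (0 : Derivation k K K) s = 0 := by
  induction s with
  | zero => simp
  | add s t hs ht => rw [map_add, hs, ht, add_zero]
  | tmul c f => simp

theorem exists_finTB (F L : Type) [Field F] [Field L] [Algebra F L] (h : Algebra.trdeg F L < ℵ₀) :
    ∃ (b : ℕ) (y : Fin b → L), IsTranscendenceBasis F y := by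
  obtain ⟨s, hs⟩ := exists_isTranscendenceBasis F L
  have : Finite s := lt_aleph0_iff_finite.1 (hs.cardinalMk_eq_trdeg ▸ h)
  exact ⟨_, _, (isTranscendenceBasis_equiv (Finite.equivFin s).symm).2 hs⟩

end

end Pool.Agent.Lib.MP_bc213e_ag.DA
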