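import Pool.Agent.Lib.MP_bc213e_ag.KBA.W

/-! Derivations of a tensor product and jets along an ideal. -/

namespace Pool.Agent.Lib.MP_bc213e_ag.DA

open scoped TensorProduct

noncomputable section

section jet

variable {k T : Type} [CommRing k] [CommRing T] [Algebra k T]

/-- The elements all of whose derivatives of order `< j` lie in `I`. -/
def Jet (𝒟 : Set (Derivation k T T)) (I : Ideal T) : ℕ → Ideal T
  | 0 => ⊤
  | j + 1 =>
    { carrier := {s | s ∈ I ∧ s ∈ Jet 𝒟 I j ∧ ∀ D ∈ 𝒟, D s ∈ Jet 𝒟 I j}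
      add_mem' := fun ha hb => ⟨add_mem ha.1 hb.1, add_mem ha.2.1 hb.2.1, fun D hD => by
        rw [map_add]
        exact add_mem (ha.2.2 D hD) (hb.2.2 D hD)⟩
      zero_mem' := ⟨zero_mem _, zero_mem _, fun D _ => by
        rw [map_zero]
        exact zero_mem _⟩
      smul_mem' := fun c s hs => ⟨I.smul_mem c hs.1, (Jet 𝒟 I j).smul_mem c hs.2.1, fun D hD => by
        rw [smul_eq_mul, Derivation.leibniz, smul_eq_mul, smul_eq_mul]
        exact add_mem (Ideal.mul_mem_left _ _ (hs.2.2 D hD)) (Ideal.mul_mem_right _ _ hs.2.1)⟩ }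

variable {𝒟 : Set (Derivation k T T)} {I : Ideal T}

theorem mem_Jet_zero (s : T) : s ∈ Jet 𝒟 I 0 := trivial

theorem Jet_succ_le (j : ℕ) : Jet 𝒟 I (j + 1) ≤ Jet 𝒟 I j := fun _ hs => hs.2.1

theorem Jet_anti {i j : ℕ} (h : i ≤ j) : Jet 𝒟 I j ≤ Jet 𝒟 I i :=
  antitone_nat_of_succ_le Jet_succ_le h

theorem mem_Jet_succ {j : ℕ} {s : T} :
    s ∈ Jet 𝒟 I (j + 1) ↔ s ∈ I ∧ ∀ D ∈ 𝒟, D s ∈ Jet 𝒟 I j := by
  refine ⟨fun h => ⟨h.1, h.2.2⟩, fun h => ⟨h.1, ?_, h.2⟩⟩
  induction j with
  | zero => trivial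
  | succ j ih => exact ⟨h.1, ih ⟨h.1, fun D hD => (h.2 D hD).2.1⟩, fun D hD => (h.2 D hD).2.1⟩

theorem mem_Jet_one {s : T} : s ∈ Jet 𝒟 I 1 ↔ s ∈ I :=
  ⟨fun h => h.1, fun h => ⟨h, trivial, fun _ _ => trivial⟩⟩

theorem Jet_le {j : ℕ} (hj : 0 < j) : Jet 𝒟 I j ≤ I := fun _ hs =>
  mem_Jet_one.1 (Jet_anti hj hs)

/-- Functoriality of jets. -/
theorem Jet_map {k' T' : Type} [CommRing k'] [CommRing T'] [Algebra k' T']
    {𝒟' : Set (Derivation k' T' T')} {I' : Ideal T'} (φ : T → T')
    (h : ∀ D' ∈ 𝒟', ∃ D ∈ 𝒟, ∀ s, D' (φ s) = φ (D s)) (hI : ∀ s ∈ I, φ s ∈ I') {j : ℕ} {s : T}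
    (hs : s ∈ Jet 𝒟 I j) : φ s ∈ Jet 𝒟' I' j := by
  induction j generalizing s with
  | zero => trivial
  | succ j ih =>
    refine mem_Jet_succ.2 ⟨hI s hs.1, fun D' hD' => ?_⟩
    obtain ⟨D, hD, e⟩ := h D' hD'
    rw [e]
    exact ih (hs.2.2 D hD)

theorem Jet_mono {I' : Ideal T} (hI : I ≤ I') (j : ℕ) : Jet 𝒟 I j ≤ Jet 𝒟 I' j := fun _ hs =>
  Jet_map id (fun D hD => ⟨D, hD, fun _ => rfl⟩) (fun _ h => hI h) hs

theorem Jet_subset {𝒟' : Set (Derivation k T T)} (h : 𝒟' ⊆ 𝒟) (j : ℕ) :
    Jet 𝒟 I j ≤ Jet 𝒟' I j := fun _ hs =>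
  Jet_map id (fun D hD => ⟨D, h hD, fun _ => rfl⟩) (fun _ h => h) hs

theorem Jet_mul {i j : ℕ} {s t : T} (hs : s ∈ Jet 𝒟 I i) (ht : t ∈ Jet 𝒟 I j) :
    s * t ∈ Jet 𝒟 I (i + j) := by
  induction h : i + j generalizing i j s t with
  | zero => trivial
  | succ n ih =>
    rcases i with _ | i
    · rw [zero_add] at h
      exact Ideal.mul_mem_left _ _ (h ▸ ht)
    rcases j with _ | j
    · rw [add_zero] at h
      exact Ideal.mul_mem_right _ _ (h ▸ hs)
    refine mem_Jet_succ.2 ⟨I.mul_mem_left _ ht.1, fun D hD => ?_⟩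
    rw [Derivation.leibniz, smul_eq_mul, smul_eq_mul]
    exact add_mem (ih hs (ht.2.2 D hD) (by omega)) (ih ht (hs.2.2 D hD) (by omega))

theorem Jet_pow {i : ℕ} {s : T} (hs : s ∈ Jet 𝒟 I i) (N : ℕ) : s ^ N ∈ Jet 𝒟 I (N * i) := by
  induction N with
  | zero => rw [zero_mul]; trivial
  | succ N ih => rw [pow_succ, add_mul, one_mul]; exact Jet_mul ih hs

theorem pow_le_Jet (j : ℕ) : I ^ j ≤ Jet 𝒟 I j := by
  induction j with
  | zero => exact le_top
  | succ j ih =>
    rw [pow_succ]
    exact Ideal.mul_le.2 fun s hs t ht => Jet_mul (ih hs) (mem_Jet_one.2 ht)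

/-- Jets along a family that generates the module of derivations. -/
theorem Jet_span {𝒟' : Set (Derivation k T T)} (h : 𝒟' ⊆ Submodule.span T 𝒟) (j : ℕ) :
    Jet 𝒟 I j ≤ Jet 𝒟' I j := by
  induction j with
  | zero => exact le_top
  | succ j ih =>
    intro s hs
    refine mem_Jet_succ.2 ⟨hs.1, fun D hD => ih ?_⟩
    have hD' := h hD
    clear hD
    induction hD' using Submodule.span_induction with
    | mem D hD => exact hs.2.2 D hD
    | zero => exact zero_mem _
    | add D D' _ _ h1 h2 => exact add_mem h1 h2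
    | smul c D _ h1 => exact Ideal.mul_mem_left _ c h1

end jet

section tensor

variable {k A B : Type} [CommRing k] [CommRing A] [CommRing B] [Algebra k A] [Algebra k B]

/-- The derivation `d ⊗ 1`. -/
def lder (d : Derivation k A A) : Derivation k (A ⊗[k] B) (A ⊗[k] B) :=
  Derivation.mk' (d.toLinearMap.rTensor B) fun s t => by
    induction s with
    | zero => simp
    | add s s' h h' => rw [add_mul, map_add, h, h', map_add, add_smul, smul_add]; abel
    | tmul a b =>
      induction t with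
      | zero => simp
      | add t t' h h' => rw [mul_add, map_add, h, h', map_add, add_smul, smul_add]; abel
      | tmul a' b' =>
        simp [Algebra.TensorProduct.tmul_mul_tmul, TensorProduct.add_tmul, mul_comm b' b]

/-- The derivation `1 ⊗ D`. -/
def rder (D : Derivation k B B) : Derivation k (A ⊗[k] B) (A ⊗[k] B) :=
  Derivation.mk' (D.toLinearMap.lTensor A) fun s t => by
    induction s with
    | zero => simp
    | add s s' h h' => rw [add_mul, map_add, h, h', map_add, add_smul, smul_add]; abel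
    | tmul a b =>
      induction t with
      | zero => simp
      | add t t' h h' => rw [mul_add, map_add, h, h', map_add, add_smul, smul_add]; abel
      | tmul a' b' =>
        simp [Algebra.TensorProduct.tmul_mul_tmul, TensorProduct.tmul_add, mul_comm a' a]

@[simp] theorem lder_tmul (d : Derivation k A A) (a : A) (b : B) :
    lder d (a ⊗ₜ[k] b) = d a ⊗ₜ[k] b := rfl

@[simp] theorem rder_tmul (D : Derivation k B B) (a : A) (b : B) :
    rder D (a ⊗ₜ[k] b) = a ⊗ₜ[k] D b := rfl

theorem lder_rder (d : Derivation k A A) (D : Derivation k B B) (s : A ⊗[k] B) :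
    lder d (rder D s) = rder D (lder d s) := by
  induction s with
  | zero => simp
  | add s s' h h' => simp only [map_add, h, h']
  | tmul a b => rfl

theorem rder_smul (D : Derivation k B B) (c : A) (s : A ⊗[k] B) :
    rder D (c • s) = c • rder D s := by
  induction s with
  | zero => simp
  | add s s' h h' => simp only [smul_add, map_add, h, h']
  | tmul a b => rfl

theorem rder_comm {D D' : Derivation k B B} (h : ∀ f, D (D' f) = D' (D f)) (s : A ⊗[k] B) :
    rder D (rder D' s) = rder D' (rder D s) := by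
  induction s with
  | zero => simp
  | add s s' h h' => simp only [map_add, h, h']
  | tmul a b => rw [rder_tmul, rder_tmul, rder_tmul, rder_tmul, h]

theorem lder_comm {d d' : Derivation k A A} (h : ∀ f, d (d' f) = d' (d f)) (s : A ⊗[k] B) :
    lder d (lder d' s) = lder d' (lder d s) := by
  induction s with
  | zero => simp
  | add s s' h h' => simp only [map_add, h, h']
  | tmul a b => rw [lder_tmul, lder_tmul, lder_tmul, lder_tmul, h]

theorem lder_mem (d : Derivation k A A) (V : Submodule k B) {s : A ⊗[k] B}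
    (hs : s ∈ V.baseChange A) : lder d s ∈ V.baseChange A := by
  obtain ⟨t, rfl⟩ := hs
  induction t with
  | zero => simp
  | add t t' h h' => rw [map_add, map_add]; exact add_mem h h'
  | tmul a b => exact Submodule.tmul_mem_baseChange_of_mem _ b.2

variable (k A B) in
/-- All derivations `d ⊗ 1`. -/
def LD : Set (Derivation k (A ⊗[k] B) (A ⊗[k] B)) := Set.range lder

variable (k A B) in
/-- All derivations `1 ⊗ D`. -/
def RD : Set (Derivation k (A ⊗[k] B) (A ⊗[k] B)) := Set.range rder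

end tensor

section ext

variable {k F E : Type} [Field k] [CharZero k] [Field F] [Field E] [Algebra k F] [Algebra k E]
  [Algebra F E] [IsScalarTower k F E]

omit [IsScalarTower k F E] in
/-- A derivation that kills a transcendence basis vanishes. -/
theorem der_eq_zero {ι : Type} {v : ι → F} (hv : IsTranscendenceBasis k v) (D : Derivation k F E)
    (h : ∀ i, D (v i) = 0) (z : F) : D z = 0 := by
  let K₀ : IntermediateField k F :=
    { carrier := {z | D z = 0}
      mul_mem' := fun {a b} ha hb => by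
        change D (a * b) = 0
        rw [Derivation.leibniz, show D a = 0 from ha, show D b = 0 from hb, smul_zero, smul_zero,
          add_zero]
      add_mem' := fun {a b} ha hb => by
        change D (a + b) = 0
        rw [map_add, show D a = 0 from ha, show D b = 0 from hb, add_zero]
      algebraMap_mem' := fun c => D.map_algebraMap c
      inv_mem' := fun a ha => by
        change D a⁻¹ = 0
        rw [Derivation.leibniz_inv, show D a = 0 from ha, smul_zero] }
  have h1 : Algebra.adjoin k (Set.range v) ≤ K₀.toSubalgebra := by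
    rw [Algebra.adjoin_le_iff]
    rintro _ ⟨i, rfl⟩
    exact h i
  have h2 : IsAlgebraic K₀ z := (hv.isAlgebraic.isAlgebraic z).tower_top_of_subalgebra_le h1
  let D₀ : Derivation K₀ F E :=
    Derivation.mk'
      { toFun := D
        map_add' := map_add D
        map_smul' := fun c y => by
          rw [IntermediateField.smul_def, smul_eq_mul, Derivation.leibniz,
            show D (c : F) = 0 from c.2, smul_zero, add_zero]
          rfl } fun a b => D.leibniz a b
  have h3 := D₀.comp_aeval_eq (a := z) (minpoly K₀ z)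
  rw [minpoly.aeval, map_zero] at h3
  have h4 : Polynomial.aeval z (Polynomial.derivative (minpoly K₀ z)) ≠ 0 :=
    (minpoly.irreducible h2.isIntegral).separable.aeval_derivative_ne_zero (minpoly.aeval K₀ z)
  exact (smul_eq_zero.1 h3.symm).resolve_left h4

/-- Derivations extend along field extensions. -/
theorem der_extend (δ : Derivation k F F) :
    ∃ De : Derivation k E E, ∀ y, De (algebraMap F E y) = algebraMap F E (δ y) := by
  obtain ⟨s, hs⟩ := exists_isTranscendenceBasis k F
  obtain ⟨t, ht⟩ := exists_isTranscendenceBasis F E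
  obtain ⟨De, hDe⟩ := KBA.W_der_basis (hs.sumElim_comp ht)
    (Sum.elim (fun _ => 0) fun i => algebraMap F E (δ i))
  refine ⟨De, fun y => sub_eq_zero.1 ?_⟩
  exact der_eq_zero hs (De.compAlgebraMap F - (Algebra.linearMap F E).compDer δ)
    (fun i => sub_eq_zero.2 (hDe (Sum.inr i))) y

end ext

section conv

theorem sum_mul_eq_zero {A E ι : Type} [Field A] [Field E] [Algebra A E] (s : Finset ι)
    (u b : ι → E) (h : ∀ l : E →ₗ[A] A, ∑ i ∈ s, algebraMap A E (l (u i)) * b i = 0) :
    ∑ i ∈ s, u i * b i = 0 := by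
  classical
  let β := Module.Basis.ofVectorSpace A E
  let t := s.biUnion fun i => (β.repr (u i)).support
  have h1 : ∀ i ∈ s, u i = ∑ j ∈ t, algebraMap A E (β.coord j (u i)) * β j := fun i hi => by
    conv_lhs => rw [← β.linearCombination_repr (u i), Finsupp.linearCombination_apply]
    rw [Finsupp.sum_of_support_subset _ (Finset.subset_biUnion_of_mem
      (fun i => (β.repr (u i)).support) hi) (fun j a => a • β j) fun j _ => zero_smul _ _]
    exact Finset.sum_congr rfl fun j _ => Algebra.smul_def _ _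
  rw [Finset.sum_congr rfl fun i hi => by rw [h1 i hi, Finset.sum_mul], Finset.sum_comm]
  refine Finset.sum_eq_zero fun j _ => ?_
  rw [← mul_zero (β j), ← h (β.coord j), Finset.mul_sum]
  exact Finset.sum_congr rfl fun i _ => by ring

variable {k A B E : Type} [Field k] [CharZero k] [Field A] [Field B] [Field E] [Algebra k A]
  [Algebra k B] [Algebra k E]

theorem conv_sum {ι : Type} (α : A →ₐ[k] E) (β : B →ₐ[k] E) (s : Finset ι) (a : ι → A) (b : ι → B)
    (h0 : ∑ i ∈ s, α (a i) * β (b i) = 0)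
    (h : ∀ d : Derivation k A A, ∑ i ∈ s, α (d (a i)) * β (b i) = 0) (D : Derivation k B B) :
    ∑ i ∈ s, α (a i) * β (D (b i)) = 0 := by
  let : Algebra A E := α.toRingHom.toAlgebra
  let : Algebra B E := β.toRingHom.toAlgebra
  have : IsScalarTower k A E := .of_algebraMap_eq fun r => (α.commutes r).symm
  have : IsScalarTower k B E := .of_algebraMap_eq fun r => (β.commutes r).symm
  obtain ⟨De, hDe⟩ := der_extend (E := E) D
  have h1 : ∑ i ∈ s, De (α (a i)) * β (b i) = 0 :=
    sum_mul_eq_zero (A := A) s _ _ fun l => h (l.compDer (De.compAlgebraMap A))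
  have h2 := congrArg De h0
  rw [map_sum, map_zero] at h2
  rw [← h2, ← add_zero (∑ i ∈ s, α (a i) * β (D (b i))), ← h1, ← Finset.sum_add_distrib]
  refine Finset.sum_congr rfl fun i _ => ?_
  rw [Derivation.leibniz, smul_eq_mul, smul_eq_mul, mul_comm (β (b i))]
  exact congrArg (fun z => α (a i) * z + _) (hDe (b i)).symm

theorem conv_ker (π : A ⊗[k] B →ₐ[k] E) {s : A ⊗[k] B} (h0 : π s = 0) :
    (∀ d, π (lder d s) = 0) ↔ ∀ D, π (rder D s) = 0 := by
  obtain ⟨S, rfl⟩ := TensorProduct.exists_finset s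
  let α : A →ₐ[k] E := π.comp Algebra.TensorProduct.includeLeft
  let β : B →ₐ[k] E := π.comp Algebra.TensorProduct.includeRight
  have e : ∀ a b, π (a ⊗ₜ[k] b) = α a * β b := fun a b => by
    rw [show a ⊗ₜ[k] b = (a ⊗ₜ[k] 1) * (1 ⊗ₜ[k] b) by simp, map_mul]
    rfl
  simp only [map_sum, lder_tmul, rder_tmul, e] at h0 ⊢
  refine ⟨fun h D => conv_sum α β S _ _ h0 h D, fun h d => ?_⟩
  simp only [mul_comm (α _)] at h0 h ⊢
  exact conv_sum β α S _ _ h0 h d

theorem conv_base (P : Ideal (A ⊗[k] B)) [P.IsPrime] {s : A ⊗[k] B} (hs : s ∈ P) :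
    (∀ d, lder d s ∈ P) ↔ ∀ D, rder D s ∈ P := by
  have e : ∀ t, t ∈ P ↔ IsScalarTower.toAlgHom k (A ⊗[k] B) P.ResidueField t = 0 := fun t =>
    Ideal.algebraMap_residueField_eq_zero.symm
  simp only [e] at hs ⊢
  exact conv_ker _ hs

/-- For a prime ideal the left jets and the right jets coincide. -/
theorem conv (P : Ideal (A ⊗[k] B)) [P.IsPrime] (j : ℕ) :
    Jet (LD k A B) P j = Jet (RD k A B) P j := by
  induction j using Nat.strong_induction_on with
  | _ j ih =>
    rcases j with _ | _ | j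
    · rfl
    · ext s
      rw [mem_Jet_one, mem_Jet_one]
    have e1 := ih (j + 1) (by omega)
    have e0 := ih j (by omega)
    refine le_antisymm (fun s hs => ?_) fun s hs => ?_
    · refine mem_Jet_succ.2 ⟨hs.1, ?_⟩
      rintro _ ⟨D, rfl⟩
      rw [← e1]
      refine mem_Jet_succ.2 ⟨(conv_base P hs.1).1 (fun d => (hs.2.2 _ ⟨d, rfl⟩).1) D, ?_⟩
      rintro _ ⟨d, rfl⟩
      rw [lder_rder, e0]
      exact (e1 ▸ hs.2.2 _ ⟨d, rfl⟩ : lder d s ∈ Jet (RD k A B) P (j + 1)).2.2 _ ⟨D, rfl⟩
    · refine mem_Jet_succ.2 ⟨hs.1, ?_⟩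
      rintro _ ⟨d, rfl⟩
      rw [e1]
      refine mem_Jet_succ.2 ⟨(conv_base P hs.1).2 (fun D => (hs.2.2 _ ⟨D, rfl⟩).1) d, ?_⟩
      rintro _ ⟨D, rfl⟩
      rw [← lder_rder, ← e0]
      exact (e1.symm ▸ hs.2.2 _ ⟨D, rfl⟩ : rder D s ∈ Jet (LD k A B) P (j + 1)).2.2 _ ⟨d, rfl⟩

end conv

end

end Pool.Agent.Lib.MP_bc213e_ag.DA
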