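import Mathlib

/-! Embeddings into a universal domain and its automorphisms. -/

namespace Pool.Agent.Lib.MP_bc213e_ag.DA

open Cardinal

variable {k F Ω : Type} [Field k] [Field F] [Field Ω]

section

variable [Algebra k F] [Algebra k Ω] [IsAlgClosed Ω]

theorem emb_of_basis {ι : Type} {v : ι → F} {w : ι → Ω} (hv : IsTranscendenceBasis k v)
    (hw : AlgebraicIndependent k w) : ∃ φ : F →ₐ[k] Ω, ∀ i, φ (v i) = w i := by
  let : Algebra (MvPolynomial ι k) F :=
    (MvPolynomial.aeval v : MvPolynomial ι k →ₐ[k] F).toRingHom.toAlgebra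
  let : Algebra (MvPolynomial ι k) Ω :=
    (MvPolynomial.aeval w : MvPolynomial ι k →ₐ[k] Ω).toRingHom.toAlgebra
  have i1 : IsScalarTower k (MvPolynomial ι k) F :=
    .of_algebraMap_eq fun r => ((MvPolynomial.aeval v : MvPolynomial ι k →ₐ[k] F).commutes r).symm
  have i2 : IsScalarTower k (MvPolynomial ι k) Ω :=
    .of_algebraMap_eq fun r => ((MvPolynomial.aeval w : MvPolynomial ι k →ₐ[k] Ω).commutes r).symm
  have i3 : FaithfulSMul (MvPolynomial ι k) F := (faithfulSMul_iff_algebraMap_injective _ _).2 hv.1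
  have i4 : FaithfulSMul (MvPolynomial ι k) Ω := (faithfulSMul_iff_algebraMap_injective _ _).2 hw
  have i5 : Algebra.IsAlgebraic (MvPolynomial ι k) F := by
    have := hv.isAlgebraic
    refine (Algebra.isAlgebraic_ringHom_iff_of_comp_eq hv.1.aevalEquiv.toRingEquiv
      (RingEquiv.refl F) ?_).1 this
    exact RingHom.ext fun r => hv.1.algebraMap_aevalEquiv r
  let φ : F →ₐ[MvPolynomial ι k] Ω := IsAlgClosed.lift
  refine ⟨φ.restrictScalars k, fun i => ?_⟩
  have h := φ.commutes (MvPolynomial.X i)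
  have h1 : algebraMap (MvPolynomial ι k) F (MvPolynomial.X i) = v i := MvPolynomial.aeval_X v i
  have h2 : algebraMap (MvPolynomial ι k) Ω (MvPolynomial.X i) = w i := MvPolynomial.aeval_X w i
  rw [h1, h2] at h
  exact h

theorem equiv_of_basis [IsAlgClosed F] {ι : Type} {v : ι → F} {w : ι → Ω}
    (hv : IsTranscendenceBasis k v) (hw : IsTranscendenceBasis k w) :
    ∃ φ : F ≃ₐ[k] Ω, ∀ i, φ (v i) = w i := by
  obtain ⟨φ, hφ⟩ := emb_of_basis hv hw.1
  let : Algebra F Ω := φ.toRingHom.toAlgebra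
  have : IsScalarTower k F Ω := .of_algebraMap_eq fun r => (φ.commutes r).symm
  have h1 : Algebra.IsAlgebraic F Ω := by
    have h2 := hw.isAlgebraic
    have h3 : Algebra.adjoin k (Set.range w) ≤ φ.range := by
      rw [Algebra.adjoin_le_iff]
      rintro _ ⟨i, rfl⟩
      exact ⟨v i, hφ i⟩
    have h4 : Algebra.IsAlgebraic φ.range Ω := by
      refine ⟨fun z => ?_⟩
      exact (h2.isAlgebraic z).tower_top_of_subalgebra_le h3
    refine (Algebra.isAlgebraic_ringHom_iff_of_comp_eq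
      (AlgEquiv.ofInjective φ φ.toRingHom.injective).toRingEquiv (RingEquiv.refl Ω) ?_).1 h4
    ext r
    rfl
  have h5 : Function.Bijective (algebraMap F Ω) := IsAlgClosed.algebraMap_bijective_of_isIntegral
  exact ⟨AlgEquiv.ofBijective φ h5, hφ⟩

theorem emb_of_trdeg (h : Algebra.trdeg k F ≤ Algebra.trdeg k Ω) : Nonempty (F →ₐ[k] Ω) := by
  obtain ⟨s, hs⟩ := exists_isTranscendenceBasis k F
  obtain ⟨t, ht⟩ := exists_isTranscendenceBasis k Ω
  rw [← hs.cardinalMk_eq_trdeg, ← ht.cardinalMk_eq_trdeg] at h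
  obtain ⟨j⟩ := h
  obtain ⟨φ, -⟩ := emb_of_basis hs (ht.1.comp j j.injective)
  exact ⟨φ⟩

theorem equiv_of_trdeg [IsAlgClosed F] (h : Algebra.trdeg k F = Algebra.trdeg k Ω) :
    Nonempty (F ≃ₐ[k] Ω) := by
  obtain ⟨s, hs⟩ := exists_isTranscendenceBasis k F
  obtain ⟨t, ht⟩ := exists_isTranscendenceBasis k Ω
  rw [← hs.cardinalMk_eq_trdeg, ← ht.cardinalMk_eq_trdeg] at h
  obtain ⟨j⟩ := Cardinal.eq.1 h
  obtain ⟨φ, -⟩ := equiv_of_basis hs ((isTranscendenceBasis_equiv j).2 ht)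
  exact ⟨φ⟩

end

/-- The transcendence degree of a universal domain over a small field. -/
theorem trdeg_eq_of_fin [Algebra k F] [Algebra k Ω] [Algebra F Ω] [IsScalarTower k F Ω]
    [FinTrdeg k F] (hΩ : ℵ₀ ≤ Algebra.trdeg k Ω) : Algebra.trdeg F Ω = Algebra.trdeg k Ω := by
  have h := trdeg_add_eq k F (A := Ω)
  have h1 := trdeg_lt_aleph0 k F
  have h2 : ℵ₀ ≤ Algebra.trdeg F Ω := by
    by_contra h3
    exact absurd (h ▸ hΩ) (not_le.2 (add_lt_aleph0 h1 (not_le.1 h3)))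
  rw [← h, add_eq_right h2 (h1.le.trans h2)]

variable [Algebra k F] [Algebra k Ω] [IsAlgClosed Ω]

/-- Two embeddings of a small field differ by an automorphism. -/
theorem aut_of_emb [FinTrdeg k F] (hΩ : ℵ₀ ≤ Algebra.trdeg k Ω) (e e' : F →ₐ[k] Ω) :
    ∃ σ : Ω ≃ₐ[k] Ω, ∀ y, σ (e y) = e' y := by
  have h1 := @trdeg_eq_of_fin k F Ω _ _ _ _ _ e.toRingHom.toAlgebra
    (@IsScalarTower.of_algebraMap_eq k F Ω _ _ _ _ e.toRingHom.toAlgebra _
      fun r => (e.commutes r).symm) _ hΩ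
  have h2 := @trdeg_eq_of_fin k F Ω _ _ _ _ _ e'.toRingHom.toAlgebra
    (@IsScalarTower.of_algebraMap_eq k F Ω _ _ _ _ e'.toRingHom.toAlgebra _
      fun r => (e'.commutes r).symm) _ hΩ
  obtain ⟨φ⟩ := @equiv_of_trdeg F Ω Ω _ _ _ e.toRingHom.toAlgebra e'.toRingHom.toAlgebra _ _
    (h1.trans h2.symm)
  have h3 : ∀ y, φ (e y) = e' y := fun y =>
    @AlgEquiv.commutes F Ω Ω _ _ _ e.toRingHom.toAlgebra e'.toRingHom.toAlgebra φ y
  let ψ : Ω ≃+* Ω :=
    @AlgEquiv.toRingEquiv F Ω Ω _ _ _ e.toRingHom.toAlgebra e'.toRingHom.toAlgebra φ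
  refine ⟨AlgEquiv.ofRingEquiv (f := ψ) fun r => ?_, h3⟩
  have h4 := h3 (algebraMap k F r)
  rw [e.commutes, e'.commutes] at h4
  exact h4

/-- An element that is fixed by all automorphisms over a small field lies in that field. -/
theorem mem_of_fixed [CharZero k] [FinTrdeg k F] (hΩ : ℵ₀ ≤ Algebra.trdeg k Ω) (e : F →ₐ[k] Ω)
    {z : Ω} (hz : ∀ σ : Ω ≃ₐ[k] Ω, (∀ y, σ (e y) = e y) → σ z = z) : ∃ y, e y = z := by
  let : Algebra F Ω := e.toRingHom.toAlgebra
  have : IsScalarTower k F Ω := .of_algebraMap_eq fun r => (e.commutes r).symm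
  have : CharZero F := charZero_of_injective_algebraMap (algebraMap k F).injective
  have hz' : ∀ σ : Ω ≃ₐ[F] Ω, σ z = z := fun σ => hz (σ.restrictScalars k) fun y => σ.commutes y
  have hF : ℵ₀ ≤ Algebra.trdeg F Ω := (trdeg_eq_of_fin (k := k) (F := F) hΩ).symm ▸ hΩ
  by_cases ha : IsAlgebraic F z
  · let L := algebraicClosure F Ω
    have : IsAlgClosure F L := algebraicClosure.isAlgClosure F Ω
    have : IsGalois F L := {}
    have h1 : (⟨z, (mem_algebraicClosure_iff' ).2 ha.isIntegral⟩ : L) ∈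
        (⊥ : IntermediateField F L) := by
      rw [InfiniteGalois.mem_bot_iff_fixed]
      intro τ
      obtain ⟨σ, hσ⟩ := aut_of_emb hF L.val (L.val.comp τ.toAlgHom)
      have := hσ ⟨z, (mem_algebraicClosure_iff' ).2 ha.isIntegral⟩
      exact Subtype.ext (this.symm.trans (hz' σ))
    obtain ⟨y, hy⟩ := h1
    exact ⟨y, congrArg Subtype.val hy⟩
  · exfalso
    have hv : AlgebraicIndependent F (fun _ : Unit => z) :=
      algebraicIndependent_unique_type_iff.2 ha
    obtain ⟨t, ht, hb⟩ := exists_isTranscendenceBasis_superset (s := Set.range fun _ : Unit => z)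
      hv.to_subtype_range
    have hinf : Infinite t := by
      rw [Cardinal.infinite_iff, hb.cardinalMk_eq_trdeg]
      exact hF
    obtain ⟨z', hz''⟩ := exists_ne (⟨z, ht ⟨(), rfl⟩⟩ : t)
    classical
    obtain ⟨σ, hσ⟩ := equiv_of_basis hb
      ((isTranscendenceBasis_equiv (Equiv.swap (⟨z, ht ⟨(), rfl⟩⟩ : t) z')).2 hb)
    have h := hσ ⟨z, ht ⟨(), rfl⟩⟩
    rw [Function.comp_apply, Equiv.swap_apply_left] at h
    exact hz'' (Subtype.ext (h.symm.trans (hz' σ)))

end Pool.Agent.Lib.MP_bc213e_ag.DA
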