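import Pool.Agent.Lib.MP_bc213e_ag.DA.Pt

/-! The fibration along which a family of linear systems stays bounded. -/

namespace Pool.Agent.Lib.MP_bc213e_ag.DA

open Cardinal
open scoped TensorProduct

noncomputable section

variable {k K Ω : Type} [Field k] [Field K] [Field Ω] [Algebra k K] [Algebra k Ω]

/-- The function `y` minus its value at the generic point `e`. -/
def eps (e : K →ₐ[k] Ω) (y : K) : Ω ⊗[k] K := e y ⊗ₜ[k] 1 - 1 ⊗ₜ[k] y

/-- `E` is the function field of the fibre through `e` of the fibration with function field `k'`.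
The systems `V a` have finite rank on the fibre, and the fibre is cut out by members of the `V a`
that vanish to arbitrarily high order along it. -/
structure Fib (V : ℕ → Submodule k K) (Ω E : Type) [Field Ω] [Algebra k Ω] [Field E]
    [Algebra Ω E] where
  e : K →ₐ[k] Ω
  k' : IntermediateField k K
  π : Ω ⊗[k] K →ₐ[Ω] E
  frac : ∀ z : E, ∃ s t, π t ≠ 0 ∧ z * π t = π s
  const : ∀ y ∈ k', π (1 ⊗ₜ[k] y) = algebraMap Ω E (e y)
  ker : RingHom.ker π = Ideal.span (eps e '' k')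
  ld : ∀ {ι : Type} {f : ι → K}, LinearIndependent k' f →
    LinearIndependent Ω fun i => π (1 ⊗ₜ[k] f i)
  bd : ∀ a, 0 < a → Module.Finite Ω (((V a).baseChange Ω).map π.toLinearMap)
  large : ∀ g : ℕ, ∃ (S : Finset (Ω ⊗[k] K)) (r : Ω ⊗[k] K) (N : ℕ),
    (∀ s ∈ S, ∃ a, 0 < a ∧ s ∈ (V a).baseChange Ω ∧
      s ∈ Jet (RD k Ω K) (RingHom.ker π) (g * a)) ∧
    π r ≠ 0 ∧ ∀ s ∈ RingHom.ker π ^ N, r * s ∈ Ideal.span (S : Set (Ω ⊗[k] K))

/-- The maximal ideal of the generic point `e`. -/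
abbrev me (e : K →ₐ[k] Ω) : Ideal (Ω ⊗[k] K) := RingHom.ker (ev e)

instance me_prime (e : K →ₐ[k] Ω) : (me e).IsPrime := RingHom.ker_isPrime _

/-- Members of the systems that vanish to high order at `e`. -/
def SS (V : ℕ → Submodule k K) (e : K →ₐ[k] Ω) (l : ℕ) : Set (Ω ⊗[k] K) :=
  {s | ∃ a, 0 < a ∧ s ∈ (V a).baseChange Ω ∧ s ∈ Jet (RD k Ω K) (me e) (l * a)}

variable {V : ℕ → Submodule k K} {e e' : K →ₐ[k] Ω}

theorem SS_anti {l l' : ℕ} (h : l ≤ l') : SS V e l' ⊆ SS V e l := fun _ ⟨a, h0, h1, h2⟩ =>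
  ⟨a, h0, h1, Jet_anti (Nat.mul_le_mul_right a h) h2⟩

theorem me_act {σ : Ω ≃ₐ[k] Ω} (h : ∀ y, σ (e y) = e' y) {s : Ω ⊗[k] K} (hs : s ∈ me e) :
    act σ s ∈ me e' := by
  rw [RingHom.mem_ker, ev_act h, RingHom.mem_ker.1 hs, map_zero]

theorem SS_act {σ : Ω ≃ₐ[k] Ω} (h : ∀ y, σ (e y) = e' y) {l : ℕ} {s : Ω ⊗[k] K}
    (hs : s ∈ SS V e l) : act σ s ∈ SS V e' l := by
  obtain ⟨a, h0, h1, h2⟩ := hs
  refine ⟨a, h0, act_mem σ _ h1, Jet_map (act σ) ?_ (fun _ => me_act h) h2⟩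
  rintro _ ⟨D, rfl⟩
  exact ⟨_, ⟨D, rfl⟩, rder_act D σ⟩

variable [CharZero k]

theorem mem_Jet_of_SS {P : Ideal (Ω ⊗[k] K)} [P.IsPrime] {l : ℕ} (hP : SS V e l ⊆ P) {a : ℕ}
    (ha : 0 < a) (i : ℕ) {s : Ω ⊗[k] K} (h1 : s ∈ (V a).baseChange Ω)
    (h2 : s ∈ Jet (RD k Ω K) (me e) (l * a + i)) : s ∈ Jet (RD k Ω K) P i := by
  rw [← conv] at h2 ⊢
  induction i generalizing s with
  | zero => trivial
  | succ i ih =>
    refine mem_Jet_succ.2 ⟨hP ⟨a, ha, h1, ?_⟩, ?_⟩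
    · rw [← conv]
      exact Jet_anti (Nat.le_add_right _ _) h2
    · rintro _ ⟨d, rfl⟩
      exact ih (lder_mem d _ h1) (h2.2.2 _ ⟨d, rfl⟩)

/-- The prime ideal of the fibre. -/
structure Low (V : ℕ → Submodule k K) (e : K →ₐ[k] Ω) (l : ℕ) (P : Ideal (Ω ⊗[k] K)) : Prop where
  prime : P.IsPrime
  le : P ≤ me e
  sub : SS V e l ⊆ P
  min : ∀ (Q : Ideal (Ω ⊗[k] K)) (l' : ℕ), Q.IsPrime → Q ≤ me e → SS V e l' ⊆ Q →
    P.height ≤ Q.height

omit [CharZero k] in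
theorem exists_low (V : ℕ → Submodule k K) (e : K →ₐ[k] Ω) : ∃ l P, Low V e l P := by
  obtain ⟨P, ⟨h1, h2, l, h3⟩, h4⟩ := exists_minimalFor_of_wellFoundedLT
    (fun Q : Ideal (Ω ⊗[k] K) => Q.IsPrime ∧ Q ≤ me e ∧ ∃ l, SS V e l ⊆ Q) Ideal.height
    ⟨me e, me_prime e, le_rfl, 1, fun s ⟨a, h0, _, hs⟩ => Jet_le (by omega) hs⟩
  exact ⟨l, P, h1, h2, h3, fun Q l' q1 q2 q3 =>
    (le_total _ _).elim id (h4 (j := Q) ⟨q1, q2, l', q3⟩)⟩

variable [Algebra.EssFiniteType k K]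

namespace Low

variable {l : ℕ} {P : Ideal (Ω ⊗[k] K)} (h : Low V e l P)
include h

omit [CharZero k] in
theorem large (g : ℕ) :
    ∃ r ∉ P, ∃ N : ℕ, ∀ s ∈ P ^ N, r * s ∈ Ideal.span (SS V e (l + g)) := by
  have : IsNoetherianRing (Ω ⊗[k] K) := Algebra.EssFiniteType.isNoetherianRing Ω _
  have := h.prime
  refine exists_mul_pow_mem ⟨⟨h.prime, Ideal.span_le.2 ((SS_anti (Nat.le_add_right _ _)).trans
    h.sub)⟩, fun Q hQ hQP => ?_⟩
  have := hQ.1
  exact (Ideal.eq_of_le_of_height_le Q hQP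
    (h.min Q (l + g) hQ.1 (hQP.trans h.le) (Ideal.span_le.1 hQ.2))).ge

omit [Algebra.EssFiniteType k K] in
theorem jet {g a : ℕ} (ha : 0 < a) {s : Ω ⊗[k] K} (h1 : s ∈ (V a).baseChange Ω)
    (h2 : s ∈ Jet (RD k Ω K) (me e) ((l + g) * a)) : s ∈ Jet (RD k Ω K) P (g * a) :=
  haveI := h.prime
  mem_Jet_of_SS h.sub ha _ h1 (add_mul l g a ▸ h2)

/-- The fibre through a general point of the fibre is the same fibre. -/
theorem stable : ∃ r ∉ P, ∀ (e' : K →ₐ[k] Ω) (σ : Ω ≃ₐ[k] Ω), P ≤ me e' → ev e' r ≠ 0 →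
    (∀ y, σ (e y) = e' y) → ∀ s, act σ s ∈ P ↔ s ∈ P := by
  have : IsNoetherianRing (Ω ⊗[k] K) := Algebra.EssFiniteType.isNoetherianRing Ω _
  have := h.prime
  obtain ⟨r, hr, N, hN⟩ := h.large l
  refine ⟨r, hr, fun e' σ h1 h2 h3 => ?_⟩
  have h4 : ∀ y, σ.symm (e' y) = e y := fun y => by rw [← h3, AlgEquiv.symm_apply_apply]
  let Q : Ideal (Ω ⊗[k] K) := P.comap (act σ.symm).toRingEquiv
  have hQ : Q.IsPrime := Ideal.comap_isPrime _ _
  have h5 : Ideal.span (SS V e (l + l)) ≤ Q := by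
    rw [Ideal.span_le]
    rintro s ⟨a, ha, s1, s2⟩
    exact h.sub (SS_act h4 ⟨a, ha, s1, Jet_mono h1 _ (h.jet ha s1 s2)⟩)
  have h6 : r ∉ Q := fun hh => h2 (by
    have h7 := me_act h3 (h.le hh)
    have h8 := act_symm σ.symm r
    rw [AlgEquiv.symm_symm] at h8
    exact h8 ▸ h7)
  have h7 : P ≤ Q := fun s hs =>
    hQ.mem_of_pow_mem N ((hQ.mem_or_mem (h5 (hN _ (Ideal.pow_mem_pow hs N)))).resolve_left h6)
  have h8 : P = Q := Ideal.eq_of_le_of_height_le P h7 (RingEquiv.height_comap _ P).le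
  intro s
  conv_lhs => rw [h8]
  change act σ.symm (act σ s) ∈ P ↔ _
  rw [act_symm]

end Low

variable [IsAlgClosed Ω]

theorem exists_fib (hΩ : ℵ₀ ≤ Algebra.trdeg k Ω) (V : ℕ → Submodule k K) :
    ∃ (E : Type) (_ : Field E) (_ : Algebra Ω E), Nonempty (Fib V Ω E) := by
  classical
  have hN : IsNoetherianRing (Ω ⊗[k] K) := Algebra.EssFiniteType.isNoetherianRing Ω _
  obtain ⟨e⟩ := emb_of_trdeg ((trdeg_lt_aleph0 k K).le.trans hΩ)
  obtain ⟨l, P, h⟩ := exists_low V e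
  have hP := h.prime
  obtain ⟨r, hr, hst⟩ := h.stable
  let G := {σ : Ω ≃ₐ[k] Ω // ∀ s ∈ P, act σ s ∈ P}
  have hG : ∀ τ : Ω ≃ₐ[k] Ω, (∀ y, τ (e y) = e y) → ∀ s ∈ P, act τ s ∈ P := fun τ hτ s hs => by
    obtain ⟨e', h1, h2⟩ := exists_point hΩ P hr
    obtain ⟨σ, hσ⟩ := aut_of_emb hΩ e e'
    rw [← hst e' σ h1 h2 hσ, act_act]
    exact (hst e' _ h1 h2 (fun y => by rw [AlgEquiv.trans_apply, hτ, hσ]) s).2 hs
  let k' : IntermediateField k K :=
    { carrier := {y | ∀ σ : G, σ.1 (e y) = e y}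
      mul_mem' := fun ha hb σ => by rw [map_mul, map_mul, ha σ, hb σ]
      add_mem' := fun ha hb σ => by rw [map_add, map_add, ha σ, hb σ]
      algebraMap_mem' := fun c σ => by rw [e.commutes, σ.1.commutes]
      inv_mem' := fun a ha σ => by rw [map_inv₀, map_inv₀, ha σ] }
  have heps : ∀ y ∈ k', eps e y ∈ P := fun y hy => by
    by_contra h0
    obtain ⟨e', h1, h2⟩ := exists_point hΩ P (r := r * eps e y)
      fun hh => (hP.mem_or_mem hh).elim hr h0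
    rw [map_mul] at h2
    obtain ⟨σ, hσ⟩ := aut_of_emb hΩ e e'
    have h3 := hy ⟨σ, fun s hs => (hst e' σ h1 (left_ne_zero_of_mul h2) hσ s).2 hs⟩
    refine right_ne_zero_of_mul h2 ?_
    rw [eps, map_sub, ev_tmul, ev_tmul, map_one, mul_one, one_mul, ← hσ, h3, sub_self]
  let π := IsScalarTower.toAlgHom Ω (Ω ⊗[k] K) P.ResidueField
  have hker : RingHom.ker π = P := Ideal.ker_algebraMap_residueField P
  have hπ : ∀ s, π s = 0 ↔ s ∈ P := fun s => Ideal.algebraMap_residueField_eq_zero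
  have htm : ∀ (c : Ω) (f : K), c ⊗ₜ[k] f = c • ((1 : Ω) ⊗ₜ[k] f) := fun c f => by
    rw [TensorProduct.smul_tmul', smul_eq_mul, mul_one]
  have hconst : ∀ y ∈ k', π (1 ⊗ₜ[k] y) = algebraMap Ω _ (e y) := fun y hy => by
    have h1 := (hπ _).2 (heps y hy)
    rw [eps, map_sub, sub_eq_zero] at h1
    rw [← h1]
    exact π.commutes (e y)
  let β := Module.Basis.ofVectorSpace k K
  have hspan : ∀ s ∈ P, s ∈ Submodule.span Ω {t : Ω ⊗[k] K | ∃ (I : Finset _) (y : _ → k'),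
      t = ∑ i ∈ I, e (y i) ⊗ₜ[k] β i ∧ ∑ i ∈ I, y i • β i = 0} := fun s hs => by
    refine Submodule.span_mono ?_ (span_fixed (β.baseChange Ω) (P.restrictScalars Ω)
      (fun σ : G => (σ.1 : Ω →+* Ω)) (fun σ => act σ.1) (fun σ s i => repr_act β σ.1 s i)
      (fun σ => σ.2) hs)
    rintro t ⟨ht, hfix⟩
    have h1 : ∀ i, ∃ y : k', e y = (β.baseChange Ω).repr t i := fun i => by
      obtain ⟨y, hy⟩ := mem_of_fixed hΩ e fun τ hτ => hfix ⟨τ, hG τ hτ⟩ i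
      exact ⟨⟨y, fun σ => by rw [hy]; exact hfix σ i⟩, hy⟩
    choose y hy using h1
    have h2 : t = ∑ i ∈ ((β.baseChange Ω).repr t).support, e (y i) ⊗ₜ[k] β i := by
      conv_lhs => rw [← (β.baseChange Ω).linearCombination_repr t, Finsupp.linearCombination_apply]
      refine Finset.sum_congr rfl fun i _ => ?_
      rw [hy, htm, ← Module.Basis.baseChange_apply]
    refine ⟨_, y, h2, ?_⟩
    let ι : K →+* P.ResidueField :=
      (π : Ω ⊗[k] K →+* P.ResidueField).comp Algebra.TensorProduct.includeRight.toRingHom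
    refine ι.injective ?_
    rw [map_zero, ← (hπ t).2 ht]
    conv_rhs => rw [h2]
    rw [map_sum, map_sum]
    refine Finset.sum_congr rfl fun i _ => ?_
    rw [htm, map_smul π, Algebra.smul_def (e _), ← hconst _ (y i).2, IntermediateField.smul_def,
      smul_eq_mul, map_mul]
    rfl
  refine ⟨P.ResidueField, inferInstance, inferInstance, ⟨⟨e, k', π, fun z => ?_, hconst, ?_,
    fun {ι f} hf => ?_, fun a ha => ?_, fun g => ?_⟩⟩⟩
  · obtain ⟨s, t, ht, rfl⟩ := IsFractionRing.div_surjective (A := (Ω ⊗[k] K) ⧸ P) z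
    obtain ⟨s, rfl⟩ := Ideal.Quotient.mk_surjective s
    obtain ⟨t, rfl⟩ := Ideal.Quotient.mk_surjective t
    have h1 : π t ≠ 0 := fun h2 => nonZeroDivisors.ne_zero ht
      (Ideal.Quotient.eq_zero_iff_mem.2 ((hπ t).1 h2))
    exact ⟨s, t, h1, div_mul_cancel₀ _ h1⟩
  · rw [hker]
    refine le_antisymm (fun s hs => ?_) (Ideal.span_le.2 ?_)
    · refine (Submodule.span_le (p := (Ideal.span (eps e '' k')).restrictScalars Ω)).2 ?_
        (hspan s hs)
      rintro _ ⟨I, y, rfl, hy⟩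
      have h1 : ∑ i ∈ I, e (y i) ⊗ₜ[k] β i = ∑ i ∈ I, eps e (y i) * (1 ⊗ₜ[k] β i) +
          1 ⊗ₜ[k] ∑ i ∈ I, y i • β i := by
        rw [TensorProduct.tmul_sum, ← Finset.sum_add_distrib]
        refine Finset.sum_congr rfl fun i _ => ?_
        rw [eps, sub_mul, Algebra.TensorProduct.tmul_mul_tmul, Algebra.TensorProduct.tmul_mul_tmul,
          IntermediateField.smul_def, smul_eq_mul, mul_one, one_mul, one_mul, sub_add_cancel]
      rw [h1, hy, TensorProduct.tmul_zero, add_zero]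
      exact Ideal.sum_mem _ fun i _ =>
        Ideal.mul_mem_right _ _ (Ideal.subset_span ⟨_, (y i).2, rfl⟩)
    · rintro _ ⟨y, hy, rfl⟩
      exact heps y hy
  · refine linearIndependent_iff'.2 fun I c hc j hj => ?_
    obtain ⟨ℓ, hℓ⟩ := LinearMap.exists_extend (Finsupp.lapply j ∘ₗ hf.repr)
    have h1 : ∀ i, ℓ (f i) = if i = j then 1 else 0 := fun i => by
      have h2 := LinearMap.congr_fun hℓ ⟨f i, Submodule.subset_span ⟨i, rfl⟩⟩
      rw [LinearMap.comp_apply, LinearMap.comp_apply, hf.repr_eq_single i _ rfl,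
        Finsupp.lapply_apply, Finsupp.single_apply] at h2
      exact h2
    let ψ : Ω ⊗[k] K →ₗ[Ω] Ω :=
      ((e.comp k'.val).toLinearMap ∘ₗ ℓ.restrictScalars k).liftBaseChange Ω
    have hψ : ∀ c y, ψ (c ⊗ₜ[k] y) = c * e (ℓ y) := fun _ _ => rfl
    have h2 : ∀ s ∈ P, ψ s = 0 := fun s hs => by
      refine (Submodule.span_le (p := LinearMap.ker ψ)).2 ?_ (hspan s hs)
      rintro _ ⟨I, y, rfl, hy⟩
      have h3 := congrArg (fun z => e (ℓ z)) hy
      simp only [map_sum, map_smul, smul_eq_mul, map_zero, ZeroMemClass.coe_zero,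
        AddSubmonoidClass.coe_finsetSum, MulMemClass.coe_mul, map_mul] at h3
      rw [SetLike.mem_coe, LinearMap.mem_ker, map_sum]
      exact h3
    have h3 : ∑ i ∈ I, c i ⊗ₜ[k] f i ∈ P := by
      rw [← hπ, map_sum, ← hc]
      exact Finset.sum_congr rfl fun i _ => by rw [htm, map_smul]
    have h4 := h2 _ h3
    rw [map_sum, Finset.sum_eq_single j (fun i _ hi => by simp [hψ, h1, hi])
      (fun hh => absurd hj hh)] at h4
    simpa [hψ, h1] using h4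
  · have := finite_quot_pow (ev e) (l * a)
    refine finite_map_of_ker _ (Ideal.Quotient.mkₐ Ω (me e ^ (l * a + 1))).toLinearMap _
      fun s hs h0 => (hπ s).2 (h.sub ⟨a, ha, hs, Jet_succ_le _ (pow_le_Jet _ ?_)⟩)
    exact Ideal.Quotient.eq_zero_iff_mem.1 h0
  · obtain ⟨r, hr, N, hN⟩ := h.large g
    obtain ⟨S, hS, hS'⟩ := (Submodule.fg_span_iff_fg_span_finset_subset (SS V e (l + g))).1
      (IsNoetherian.noetherian (Ideal.span (SS V e (l + g))))
    rw [hker]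
    refine ⟨S, r, N, fun s hs => ?_, fun h0 => hr ((hπ r).1 h0), fun s hs => ?_⟩
    · obtain ⟨a, ha, h1, h2⟩ := hS hs
      exact ⟨a, ha, h1, h.jet ha h1 h2⟩
    · exact (show Ideal.span _ = Ideal.span _ from hS') ▸ hN s hs

end

end Pool.Agent.Lib.MP_bc213e_ag.DA
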