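import Pool.Agent.Lib.MP_bc213e_ag.DA.Emb
import Pool.Agent.Lib.MP_bc213e_ag.DA.Der

/-! Generic points with values in a universal domain, the action of its automorphisms, and some
commutative algebra. -/

namespace Pool.Agent.Lib.MP_bc213e_ag.DA

open Cardinal
open scoped TensorProduct

noncomputable section

section comm

theorem exists_mul_pow_mem {T : Type} [CommRing T] [IsNoetherianRing T] {I P : Ideal T}
    (hP : P ∈ I.minimalPrimes) : ∃ r ∉ P, ∃ N : ℕ, ∀ s ∈ P ^ N, r * s ∈ I := by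
  have := hP.1.1
  let A := Localization.AtPrime P
  let J := (I.map (algebraMap T A)).comap (algebraMap T A)
  have h1 : P ≤ J.radical := fun s hs => by
    rw [← Ideal.comap_radical, Ideal.mem_comap,
      IsLocalization.AtPrime.radical_map_of_mem_minimalPrimes A P I hP]
    exact Ideal.mem_map_of_mem _ hs
  obtain ⟨N, hN⟩ := Ideal.exists_pow_le_of_le_radical_of_fg h1 (IsNoetherian.noetherian P)
  have h2 : ∀ s ∈ J, ∃ r ∉ P, r * s ∈ I := fun s hs => by
    obtain ⟨r, hr, h⟩ := (IsLocalization.algebraMap_mem_map_algebraMap_iff P.primeCompl A I s).1 hs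
    exact ⟨r, hr, h⟩
  obtain ⟨G, hG⟩ : J.FG := IsNoetherian.noetherian J
  choose! ρ hρ hρ' using h2
  have hGJ : ∀ s ∈ G, s ∈ J := fun s hs => hG ▸ Ideal.subset_span hs
  refine ⟨∏ s ∈ G, ρ s, prod_mem (S := P.primeCompl) fun s hs => hρ s (hGJ s hs), N,
    fun s hs => ?_⟩
  have hs' := hN hs
  rw [← hG] at hs'
  clear hs
  induction hs' using Submodule.span_induction with
  | mem s hs =>
    classical
    rw [← Finset.prod_erase_mul _ _ hs, mul_assoc]
    exact I.mul_mem_left _ (hρ' s (hGJ s hs))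
  | zero => rw [mul_zero]; exact zero_mem _
  | add s t _ _ h1 h2 => rw [mul_add]; exact add_mem h1 h2
  | smul c s _ h1 => rw [smul_eq_mul, mul_left_comm]; exact I.mul_mem_left _ h1

theorem finite_quot_pow {Ω T : Type} [Field Ω] [CommRing T] [Algebra Ω T] [IsNoetherianRing T]
    (ε : T →ₐ[Ω] Ω) (j : ℕ) : Module.Finite Ω (T ⧸ RingHom.ker ε ^ (j + 1)) := by
  let f : (T ⧸ RingHom.ker ε ^ (j + 1)) →ₐ[Ω] Ω :=
    Ideal.Quotient.liftₐ _ ε fun s hs => Ideal.pow_le_self j.succ_ne_zero hs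
  refine Module.finite_of_surjective_of_ker_le_nilradical f (fun c => ⟨algebraMap _ _ c, ?_⟩)
    (fun s hs => ?_) (IsNoetherian.noetherian _)
  · exact f.commutes c
  · obtain ⟨s, rfl⟩ := Ideal.Quotient.mk_surjective s
    refine mem_nilradical.2 ⟨j + 1, ?_⟩
    rw [← map_pow, Ideal.Quotient.eq_zero_iff_mem]
    exact Ideal.pow_mem_pow (I := RingHom.ker ε) hs _

theorem finite_map_of_ker {Ω T M N : Type} [Field Ω] [AddCommGroup T] [Module Ω T]
    [AddCommGroup M] [Module Ω M] [AddCommGroup N] [Module Ω N] [Module.Finite Ω M]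
    (U : Submodule Ω T) (f : T →ₗ[Ω] M) (g : T →ₗ[Ω] N) (h : ∀ s ∈ U, f s = 0 → g s = 0) :
    Module.Finite Ω (U.map g) := by
  have h1 : LinearMap.ker (f ∘ₗ U.subtype) ≤ LinearMap.ker (g ∘ₗ U.subtype) :=
    fun s hs => h s s.2 hs
  have h2 : Module.Finite Ω (U ⧸ LinearMap.ker (f ∘ₗ U.subtype)) :=
    Module.Finite.equiv (f ∘ₗ U.subtype).quotKerEquivRange.symm
  have h3 : U.map g = LinearMap.range (Submodule.liftQ _ (g ∘ₗ U.subtype) h1) := by
    rw [Submodule.range_liftQ, LinearMap.range_comp, Submodule.range_subtype]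
  rw [h3]
  infer_instance

/-- A subspace is spanned by its elements of minimal support. -/
theorem span_fixed {Ω T ι G : Type} [Field Ω] [AddCommGroup T] [Module Ω T]
    (β : Module.Basis ι Ω T) (U : Submodule Ω T) (σ : G → Ω →+* Ω) (a : G → T → T)
    (ha : ∀ g s i, β.repr (a g s) i = σ g (β.repr s i)) (hU : ∀ g, ∀ s ∈ U, a g s ∈ U) {s : T}
    (hs : s ∈ U) :
    s ∈ Submodule.span Ω {t | t ∈ U ∧ ∀ g i, σ g (β.repr t i) = β.repr t i} := by
  classical
  induction h : (β.repr s).support.card using Nat.strong_induction_on generalizing s with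
  | _ n ih =>
    by_cases h0 : s = 0
    · rw [h0]; exact zero_mem _
    obtain ⟨i, hi⟩ : ∃ i, β.repr s i ≠ 0 := by
      by_contra h1
      push Not at h1
      exact h0 (β.repr.injective (by rw [map_zero]; exact Finsupp.ext h1))
    let t := (β.repr s i)⁻¹ • s
    have ht : t ∈ U := U.smul_mem _ hs
    have hst : s = β.repr s i • t := by rw [smul_smul, mul_inv_cancel₀ hi, one_smul]
    have hti : β.repr t i = 1 := by
      rw [map_smul, Finsupp.smul_apply, smul_eq_mul, inv_mul_cancel₀ hi]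
    have hsupp : ∀ j, β.repr s j = 0 → β.repr t j = 0 := fun j hj => by
      rw [map_smul, Finsupp.smul_apply, hj, smul_zero]
    by_cases hfix : ∀ g j, σ g (β.repr t j) = β.repr t j
    · rw [hst]
      exact Submodule.smul_mem _ _ (Submodule.subset_span ⟨ht, hfix⟩)
    push Not at hfix
    obtain ⟨g, j, hj⟩ := hfix
    have hlt : ∀ (u : T) (l : ι), β.repr s l ≠ 0 → β.repr u l = 0 →
        (∀ l', β.repr s l' = 0 → β.repr u l' = 0) → (β.repr u).support.card < n := by
      intro u l h1 h2 h3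
      rw [← h]
      refine Finset.card_lt_card ⟨fun l' hl' => ?_, fun hh => ?_⟩
      · exact Finsupp.mem_support_iff.2 fun h4 => Finsupp.mem_support_iff.1 hl' (h3 l' h4)
      · exact Finsupp.mem_support_iff.1 (hh (Finsupp.mem_support_iff.2 h1)) h2
    let u := a g t - t
    have hu : u ∈ U := U.sub_mem (hU g t ht) ht
    have hul : ∀ l, β.repr u l = σ g (β.repr t l) - β.repr t l := fun l => by
      rw [map_sub, Finsupp.sub_apply, ha]
    have hu0 : ∀ l, β.repr s l = 0 → β.repr u l = 0 := fun l hl => by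
      rw [hul, hsupp l hl, map_zero, sub_zero]
    have huj : β.repr u j ≠ 0 := by rw [hul]; exact sub_ne_zero.2 hj
    have h1 := ih _ (hlt u i hi (by rw [hul, hti, map_one, sub_self]) hu0) hu rfl
    let v := s - (β.repr s j / β.repr u j) • u
    have hv : v ∈ U := U.sub_mem hs (U.smul_mem _ hu)
    have hvl : ∀ l, β.repr v l = β.repr s l - β.repr s j / β.repr u j * β.repr u l := fun l => by
      rw [map_sub, map_smul, Finsupp.sub_apply, Finsupp.smul_apply, smul_eq_mul]
    have h2 := ih _ (hlt v j (fun h3 => huj (hu0 j h3))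
      (by rw [hvl, div_mul_cancel₀ _ huj, sub_self])
      fun l hl => by rw [hvl, hl, hu0 l hl, mul_zero, sub_zero]) hv rfl
    have h3 : s = v + (β.repr s j / β.repr u j) • u := (sub_add_cancel _ _).symm
    rw [h3]
    exact add_mem h2 (Submodule.smul_mem _ _ h1)

end comm

variable {k K Ω : Type} [Field k] [Field K] [Field Ω] [Algebra k K] [Algebra k Ω]

/-- Evaluation at the generic point `e`. -/
def ev (e : K →ₐ[k] Ω) : Ω ⊗[k] K →ₐ[Ω] Ω :=
  Algebra.TensorProduct.lift (AlgHom.id Ω Ω) e fun _ _ => Commute.all _ _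

@[simp] theorem ev_tmul (e : K →ₐ[k] Ω) (c : Ω) (f : K) : ev e (c ⊗ₜ[k] f) = c * e f := rfl

/-- The action of an automorphism of the universal domain. -/
def act (σ : Ω ≃ₐ[k] Ω) : Ω ⊗[k] K ≃ₐ[k] Ω ⊗[k] K :=
  Algebra.TensorProduct.congr σ AlgEquiv.refl

@[simp] theorem act_tmul (σ : Ω ≃ₐ[k] Ω) (c : Ω) (f : K) :
    act σ (c ⊗ₜ[k] f) = σ c ⊗ₜ[k] f := rfl

theorem act_act (σ τ : Ω ≃ₐ[k] Ω) (s : Ω ⊗[k] K) : act σ (act τ s) = act (τ.trans σ) s := by
  induction s with
  | zero => simp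
  | add s s' h h' => simp only [map_add, h, h']
  | tmul a b => rfl

theorem act_symm (σ : Ω ≃ₐ[k] Ω) (s : Ω ⊗[k] K) : act σ.symm (act σ s) = s := by
  induction s with
  | zero => simp
  | add s s' h h' => simp only [map_add, h, h']
  | tmul a b => simp

theorem ev_act {e e' : K →ₐ[k] Ω} {σ : Ω ≃ₐ[k] Ω} (h : ∀ y, σ (e y) = e' y) (s : Ω ⊗[k] K) :
    ev e' (act σ s) = σ (ev e s) := by
  induction s with
  | zero => simp
  | add s s' h h' => simp only [map_add, h, h']
  | tmul a b => rw [act_tmul, ev_tmul, ev_tmul, map_mul, h]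

theorem rder_act (D : Derivation k K K) (σ : Ω ≃ₐ[k] Ω) (s : Ω ⊗[k] K) :
    rder D (act σ s) = act σ (rder D s) := by
  induction s with
  | zero => simp
  | add s s' h h' => simp only [map_add, h, h']
  | tmul a b => rfl

theorem act_mem (σ : Ω ≃ₐ[k] Ω) (V : Submodule k K) {s : Ω ⊗[k] K} (hs : s ∈ V.baseChange Ω) :
    act σ s ∈ V.baseChange Ω := by
  obtain ⟨t, rfl⟩ := hs
  induction t with
  | zero => simp
  | add t t' h h' => rw [map_add, map_add]; exact add_mem h h'
  | tmul a b => exact Submodule.tmul_mem_baseChange_of_mem _ b.2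

theorem repr_act {ι : Type} (β : Module.Basis ι k K) (σ : Ω ≃ₐ[k] Ω) (s : Ω ⊗[k] K) (i : ι) :
    (β.baseChange Ω).repr (act σ s) i = σ ((β.baseChange Ω).repr s i) := by
  induction s with
  | zero => simp
  | add s s' h h' => simp only [map_add, Finsupp.add_apply, h, h']
  | tmul a b => simp

/-- Base change commutes with increasing unions. -/
theorem mem_baseChange_iSup {V : ℕ → Submodule k K} (hV : Monotone V) {s : Ω ⊗[k] K}
    (hs : s ∈ (⨆ m, V m).baseChange Ω) : ∃ m, s ∈ (V m).baseChange Ω := by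
  obtain ⟨t, rfl⟩ := hs
  induction t with
  | zero => exact ⟨0, by simp⟩
  | add t t' h h' =>
    obtain ⟨m, hm⟩ := h
    obtain ⟨m', hm'⟩ := h'
    refine ⟨max m m', ?_⟩
    rw [map_add]
    exact add_mem (Submodule.baseChange_mono _ (hV (le_max_left _ _)) hm)
      (Submodule.baseChange_mono _ (hV (le_max_right _ _)) hm')
  | tmul a b =>
    obtain ⟨m, hm⟩ := (Submodule.mem_iSup_of_directed V hV.directed_le).1 b.2
    exact ⟨m, Submodule.tmul_mem_baseChange_of_mem _ hm⟩

variable [IsAlgClosed Ω]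

/-- A finitely generated extension of the universal domain embeds into it over any finite set. -/
theorem emb_over (hΩ : ℵ₀ ≤ Algebra.trdeg k Ω) (E : Type) [Field E] [Algebra Ω E] [Algebra k E]
    [IsScalarTower k Ω E] [FinTrdeg Ω E] (C : Finset Ω) :
    ∃ ψ : E →ₐ[k] Ω, ∀ c ∈ C, ψ (algebraMap Ω E c) = c := by
  let k₀ := IntermediateField.adjoin k (C : Set Ω)
  have h0 : Algebra.EssFiniteType k k₀ :=
    IntermediateField.essFiniteType_iff.2 (IntermediateField.fg_adjoin_finset C)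
  have h1 : ℵ₀ ≤ Algebra.trdeg k₀ Ω := (trdeg_eq_of_fin (k := k) (F := k₀) hΩ).symm ▸ hΩ
  have h2 : Algebra.trdeg k₀ E ≤ Algebra.trdeg k₀ Ω := by
    rw [← trdeg_add_eq k₀ Ω (A := E), add_eq_left h1 ((trdeg_lt_aleph0 Ω E).le.trans h1)]
  obtain ⟨ψ⟩ := emb_of_trdeg h2
  exact ⟨ψ.restrictScalars k, fun c hc => ψ.commutes ⟨c, IntermediateField.subset_adjoin _ _ hc⟩⟩

/-- Every prime ideal has a generic point outside a given hypersurface. -/
theorem exists_point [Algebra.EssFiniteType k K] (hΩ : ℵ₀ ≤ Algebra.trdeg k Ω)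
    (P : Ideal (Ω ⊗[k] K)) [P.IsPrime] {r : Ω ⊗[k] K} (hr : r ∉ P) :
    ∃ e : K →ₐ[k] Ω, P ≤ RingHom.ker (ev e) ∧ ev e r ≠ 0 := by
  classical
  have : IsNoetherianRing (Ω ⊗[k] K) := Algebra.EssFiniteType.isNoetherianRing Ω _
  have : Algebra.EssFiniteType Ω P.ResidueField := .comp _ (Ω ⊗[k] K) _
  obtain ⟨G, hG⟩ : P.FG := IsNoetherian.noetherian P
  choose S hS using fun s : Ω ⊗[k] K => TensorProduct.exists_finset s
  obtain ⟨ψ, hψ⟩ := emb_over hΩ P.ResidueField
    ((insert r G).biUnion fun s => (S s).image Prod.fst)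
  let π := IsScalarTower.toAlgHom k (Ω ⊗[k] K) P.ResidueField
  let e : K →ₐ[k] Ω := ψ.comp (π.comp Algebra.TensorProduct.includeRight)
  have key : ∀ s ∈ insert r G, ev e s = ψ (π s) := fun s hs => by
    rw [hS s, map_sum, map_sum, map_sum]
    refine Finset.sum_congr rfl fun p hp => ?_
    have h1 : p.1 ⊗ₜ[k] p.2 = algebraMap Ω (Ω ⊗[k] K) p.1 * (1 ⊗ₜ[k] p.2) := by simp
    have h2 : π (algebraMap Ω (Ω ⊗[k] K) p.1) = algebraMap Ω P.ResidueField p.1 :=
      (IsScalarTower.algebraMap_apply Ω (Ω ⊗[k] K) P.ResidueField p.1).symm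
    rw [ev_tmul, h1, map_mul, map_mul, h2,
      hψ _ (Finset.mem_biUnion.2 ⟨s, hs, Finset.mem_image_of_mem _ hp⟩)]
    rfl
  refine ⟨e, ?_, ?_⟩
  · rw [← hG, Ideal.span_le]
    intro s hs
    have h1 : π s = 0 := Ideal.algebraMap_residueField_eq_zero.2 (hG ▸ Ideal.subset_span hs)
    rw [SetLike.mem_coe, RingHom.mem_ker, key s (Finset.mem_insert_of_mem hs), h1, map_zero]
  · rw [key r (Finset.mem_insert_self _ _), map_ne_zero]
    exact fun h => hr (Ideal.algebraMap_residueField_eq_zero.1 h)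

end

end Pool.Agent.Lib.MP_bc213e_ag.DA
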